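import Pool.Agent.NTW.StmtsA

/-!
Squad NTW, row PAC: the group acts.
-/

set_option autoImplicit false

open Matrix Filter Topology

namespace Pool.Agent.NTW.H23

open Pool.Agent.PFS Pool.Agent.PFJ Pool.Agent.NTW

variable {n : ℕ} {C : Set (V n)} {Γ : Subgroup (GL (Fin n) ℝ)}

theorem self_face (hP : PCone C) (z : V n) : z ∈ Face C z := by
  refine ⟨1, one_pos, ?_, ?_⟩
  · rw [one_smul, sub_self]
    exact hP.zero_cl
  · rw [one_smul, sub_self]
    exact hP.zero_cl

/-- the open face of a positive multiple (`z` arbitrary) -/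
theorem face_smul (hP : PCone C) {s : ℝ} (hs : 0 < s) (z : V n) :
    Face C (s • z) ⊆ (Submodule.span ℝ (Face C z) : Set (V n)) := by
  rintro y ⟨ε, hε, h1, h2⟩
  have hz : (s * (1 - ε ^ 2)) • z ∈ closure C := by
    have h3 := hP.cl_add h1 (hP.cl_smul h2 hε.le)
    have h4 : s • z - ε • y + ε • (y - ε • s • z) = (s * (1 - ε ^ 2)) • z := by
      module
    rwa [h4] at h3
  have hy : (1 - ε ^ 2) • y ∈ closure C := by
    have h3 := hP.cl_add h2 (hP.cl_smul h1 hε.le)
    have h4 : y - ε • s • z + ε • (s • z - ε • y) = (1 - ε ^ 2) • y := by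
      module
    rwa [h4] at h3
  rcases lt_trichotomy ε 1 with hlt | heq | hgt
  · have hpos : 0 < 1 - ε ^ 2 := by nlinarith
    have hzc : z ∈ closure C := (hP.cl_smul_iff (mul_pos hs hpos)).mp hz
    have hyc : y ∈ closure C := (hP.cl_smul_iff hpos).mp hy
    apply Submodule.subset_span
    refine ⟨min (ε / s) (ε * s), lt_min (by positivity) (by positivity), ?_, ?_⟩
    · have h3 := hP.cl_add (hP.cl_smul h1 (inv_pos.mpr hs).le)
        (hP.cl_smul hyc (sub_nonneg.mpr (min_le_left (ε / s) (ε * s))))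
      have h4 : s⁻¹ • (s • z - ε • y) + (ε / s - min (ε / s) (ε * s)) • y =
          z - min (ε / s) (ε * s) • y := by
        rw [smul_sub, smul_smul, smul_smul, inv_mul_cancel₀ hs.ne', sub_smul, one_smul,
          div_eq_inv_mul]
        abel
      rwa [h4] at h3
    · have h3 := hP.cl_add h2
        (hP.cl_smul hzc (sub_nonneg.mpr (min_le_right (ε / s) (ε * s))))
      have h4 : y - ε • s • z + (ε * s - min (ε / s) (ε * s)) • z =
          y - min (ε / s) (ε * s) • z := by
        module
      rwa [h4] at h3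
  · rw [heq, one_smul] at h1
    rw [heq, one_smul] at h2
    have h3 : y = s • z := by
      apply sub_eq_zero.mp
      apply hP.salient _ h2
      rw [neg_sub]
      exact h1
    rw [h3]
    exact Submodule.smul_mem _ _ (Submodule.subset_span (self_face hP z))
  · have hpos : 0 < ε ^ 2 - 1 := by nlinarith
    have hzc : -z ∈ closure C := by
      rw [← hP.cl_smul_iff (mul_pos hs hpos)]
      have h4 : (s * (ε ^ 2 - 1)) • -z = (s * (1 - ε ^ 2)) • z := by
        module
      rw [h4]
      exact hz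
    have hyc : -y ∈ closure C := by
      rw [← hP.cl_smul_iff hpos]
      have h4 : (ε ^ 2 - 1) • -y = (1 - ε ^ 2) • y := by
        module
      rw [h4]
      exact hy
    apply Submodule.subset_span
    refine ⟨max (ε / s) (ε * s), lt_max_of_lt_left (by positivity), ?_, ?_⟩
    · have h3 := hP.cl_add (hP.cl_smul h1 (inv_pos.mpr hs).le)
        (hP.cl_smul hyc (sub_nonneg.mpr (le_max_left (ε / s) (ε * s))))
      have h4 : s⁻¹ • (s • z - ε • y) + (max (ε / s) (ε * s) - ε / s) • -y =
          z - max (ε / s) (ε * s) • y := by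
        rw [smul_sub, smul_smul, smul_smul, inv_mul_cancel₀ hs.ne', sub_smul, one_smul,
          div_eq_inv_mul]
        module
      rwa [h4] at h3
    · have h3 := hP.cl_add h2
        (hP.cl_smul hzc (sub_nonneg.mpr (le_max_right (ε / s) (ε * s))))
      have h4 : y - ε • s • z + (max (ε / s) (ε * s) - ε * s) • -z =
          y - max (ε / s) (ε * s) • z := by
        module
      rwa [h4] at h3

theorem span_face_smul (hP : PCone C) {s : ℝ} (hs : 0 < s) (z : V n) :
    Submodule.span ℝ (Face C (s • z)) = Submodule.span ℝ (Face C z) := by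
  apply le_antisymm
  · exact Submodule.span_le.mpr (face_smul hP hs z)
  · apply Submodule.span_le.mpr
    have h1 := face_smul hP (inv_pos.mpr hs) (s • z)
    rwa [smul_smul, inv_mul_cancel₀ hs.ne', one_smul] at h1

theorem face_act (hCC : CC C Γ) {g : GL (Fin n) ℝ} (hg : g ∈ Γ) (z : V n) :
    Face C (act g z) = act g '' Face C z := by
  ext u
  constructor
  · rintro ⟨ε, hε, h1, h2⟩
    refine ⟨act g⁻¹ u, ⟨ε, hε, ?_, ?_⟩, CC.act_act_inv g u⟩
    · rw [← hCC.act_cl_iff hg, CC.act_sub, CC.act_smul, CC.act_act_inv]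
      exact h1
    · rw [← hCC.act_cl_iff hg, CC.act_sub, CC.act_smul, CC.act_act_inv]
      exact h2
  · rintro ⟨y, ⟨ε, hε, h1, h2⟩, rfl⟩
    refine ⟨ε, hε, ?_, ?_⟩
    · rw [← CC.act_smul, ← CC.act_sub, hCC.act_cl_iff hg]
      exact h1
    · rw [← CC.act_smul, ← CC.act_sub, hCC.act_cl_iff hg]
      exact h2

theorem img_span (g : GL (Fin n) ℝ) (S : Set (V n)) :
    img g (Submodule.span ℝ S) = Submodule.span ℝ (act g '' S) := by
  unfold img
  rw [Submodule.map_span]
  rfl

theorem rst_act {K : ℕ} (g : GL (Fin n) ℝ) (s : ℝ) (w : Fin K → V n) (i j : Fin K) :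
    rst (fun m => s • act g (w m)) i j = s • act g (rst w i j) := by
  unfold rst
  rw [CC.act_sum, Finset.smul_sum]

/-- **PAC** -/
theorem pac : PacStmt := by
  intro n C Γ hCC g hg s hs
  have hP : PCone C := hCC.toPCone
  have himg := Pool.Agent.PFJ.H32.img n
  have hFs : ∀ x y, Fs C (s • act g x) (s • act g y) = img g (Fs C x y) := by
    intro x y
    unfold Fs
    have h1 : s • act g x + s • act g y = act g (s • (x + y)) := by
      rw [CC.act_smul, CC.act_add, smul_add]
    rw [h1, face_act hCC hg, ← img_span, span_face_smul hP hs]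
  have hLf : ∀ (K : ℕ) (τ : Fin K → Fin K) (w : Fin K → V n),
      ∀ i, Lf C τ (fun m => s • act g (w m)) i = img g (Lf C τ w i) := by
    intro K τ w i
    unfold Lf
    by_cases hi : τ i = i
    · rw [if_pos hi, if_pos hi, img_span, Set.image_singleton,
        Submodule.span_singleton_smul_eq (isUnit_iff_ne_zero.mpr hs.ne')]
    · rw [if_neg hi, if_neg hi]
      exact hFs _ _
  refine ⟨hFs, ?_, ?_⟩
  · intro K w i j L hL
    refine ⟨?_, ?_, ?_⟩
    · exact (img g L).smul_mem s ((himg.2.1 g L _).mpr hL.left)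
    · exact (img g L).smul_mem s ((himg.2.1 g L _).mpr hL.right)
    · intro v hv hvc
      obtain ⟨v', hv', rfl⟩ := mem_img.mp hv
      rw [rst_act] at hvc
      have h1 : act g v' + s • act g (rst w i j) = s • act g (s⁻¹ • v' + rst w i j) := by
        rw [CC.act_add, CC.act_smul, smul_add, smul_smul, mul_inv_cancel₀ hs.ne', one_smul]
      rw [h1, hCC.sact_cl_iff hg hs] at hvc
      have h2 := hL.box _ (L.smul_mem s⁻¹ hv') hvc
      exact hCC.act_cl hg ((hP.cl_smul_iff (inv_pos.mpr hs)).mp h2)
  · intro K τ w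
    refine ⟨hLf K τ w, ?_⟩
    unfold Ws
    rw [himg.2.2.2.2.1]
    exact iSup_congr (hLf K τ w)

end Pool.Agent.NTW.H23
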